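import Pool.Agent.Helper68.FR.Closure

/-!
The class of one-relator groups whose chain of iterated finite residuals becomes constant is closed
under passing from the relator `r` to the relator `(r^w)^(-e) r^m (r^w)^e r^(-n)` with
`|m - n| = 1`.
-/

namespace Pool.Agent.Results.MP_bf9ac2_al.ConjugationClosure

open Pool.Agent.Helper68.FR

/-- The relator `(w⁻¹ r w)^(-e) r^m (w⁻¹ r w)^e r^(-n)`. -/
def conjRel {k : ℕ} (r w : FreeGroup (Fin k)) (e m n : ℤ) : FreeGroup (Fin k) :=
  (w⁻¹ * r * w) ^ (-e) * r ^ m * (w⁻¹ * r * w) ^ e * r ^ (-n)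

/-- For `R = (r^w)^(-e) r^m (r^w)^e r^(-n)` with `|m - n| = 1` the kernel of the canonical map
`π` from `⟨a_1, …, a_k; R⟩` onto `⟨a_1, …, a_k; r⟩` has no proper subgroup of finite index, the
iterated finite residuals of the first group are the preimages of those of the second, and the two
chains become constant at the same steps. -/
theorem result (k : ℕ) (r w : FreeGroup (Fin k)) (e m n : ℤ) (hmn : |m - n| = 1) :
    ∃ π : PresentedGroup ({conjRel r w e m n} : Set (FreeGroup (Fin k))) →*
        PresentedGroup ({r} : Set (FreeGroup (Fin k))),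
      (∀ i, π (PresentedGroup.of i) = PresentedGroup.of i) ∧ Function.Surjective π ∧
      (∀ K : Subgroup (PresentedGroup ({conjRel r w e m n} : Set (FreeGroup (Fin k)))),
        (K.subgroupOf π.ker).index ≠ 0 → π.ker ≤ K) ∧
      (∀ j, fch (PresentedGroup ({conjRel r w e m n} : Set (FreeGroup (Fin k)))) j =
        (fch (PresentedGroup ({r} : Set (FreeGroup (Fin k)))) j).comap π) ∧
      (∀ j, fch (PresentedGroup ({conjRel r w e m n} : Set (FreeGroup (Fin k)))) j =
          fch (PresentedGroup ({conjRel r w e m n} : Set (FreeGroup (Fin k)))) (j + 1) ↔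
        fch (PresentedGroup ({r} : Set (FreeGroup (Fin k)))) j =
          fch (PresentedGroup ({r} : Set (FreeGroup (Fin k)))) (j + 1)) := by
  classical
  set R := conjRel r w e m n with hR
  have hrmem : r ∈ Subgroup.normalClosure ({r} : Set (FreeGroup (Fin k))) :=
    Subgroup.subset_normalClosure rfl
  have hnr : (Subgroup.normalClosure ({r} : Set (FreeGroup (Fin k)))).Normal :=
    Subgroup.normalClosure_normal
  have hcmem : w⁻¹ * r * w ∈ Subgroup.normalClosure ({r} : Set (FreeGroup (Fin k))) := by
    have h1 := hnr.conj_mem r hrmem w⁻¹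
    rwa [inv_inv] at h1
  have hRmem : R ∈ Subgroup.normalClosure ({r} : Set (FreeGroup (Fin k))) :=
    Subgroup.mul_mem _ (Subgroup.mul_mem _ (Subgroup.mul_mem _ (Subgroup.zpow_mem _ hcmem _)
      (Subgroup.zpow_mem _ hrmem _)) (Subgroup.zpow_mem _ hcmem _)) (Subgroup.zpow_mem _ hrmem _)
  have hle : Subgroup.normalClosure ({R} : Set (FreeGroup (Fin k))) ≤
      (Subgroup.normalClosure ({r} : Set (FreeGroup (Fin k)))).comap (MonoidHom.id _) := by
    rw [Subgroup.comap_id]
    exact Subgroup.normalClosure_le_normal (by simpa using hRmem)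
  let qR : FreeGroup (Fin k) →* PresentedGroup ({R} : Set (FreeGroup (Fin k))) :=
    PresentedGroup.mk _
  have hqR : Function.Surjective qR := QuotientGroup.mk'_surjective _
  have hqRk : qR R = 1 := by
    rw [← MonoidHom.mem_ker]
    change R ∈ (QuotientGroup.mk' (Subgroup.normalClosure {R})).ker
    rw [QuotientGroup.ker_mk']
    exact Subgroup.subset_normalClosure rfl
  let π : PresentedGroup ({R} : Set (FreeGroup (Fin k))) →*
      PresentedGroup ({r} : Set (FreeGroup (Fin k))) :=
    QuotientGroup.map _ _ (MonoidHom.id _) hle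
  have hπq : ∀ y, π (qR y) = PresentedGroup.mk ({r} : Set (FreeGroup (Fin k))) y := fun y => rfl
  have hπ : Function.Surjective π := by
    intro z
    obtain ⟨y, rfl⟩ := QuotientGroup.mk'_surjective _ z
    exact ⟨qR y, rfl⟩
  have hker : π.ker = Subgroup.normalClosure {qR r} := by
    apply le_antisymm
    · intro z hz
      obtain ⟨y, rfl⟩ := hqR z
      have h1 : y ∈ Subgroup.normalClosure ({r} : Set (FreeGroup (Fin k))) := by
        rw [← QuotientGroup.ker_mk' (Subgroup.normalClosure ({r} : Set (FreeGroup (Fin k)))),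
          MonoidHom.mem_ker]
        exact hz
      have h2 := Subgroup.map_normalClosure ({r} : Set (FreeGroup (Fin k))) qR hqR
      rw [Set.image_singleton] at h2
      rw [← h2]
      exact Subgroup.mem_map_of_mem _ h1
    · apply Subgroup.normalClosure_le_normal
      rw [Set.singleton_subset_iff]
      change π (qR r) = 1
      rw [hπq]
      change r ∈ (QuotientGroup.mk' (Subgroup.normalClosure {r})).ker
      rw [QuotientGroup.ker_mk']
      exact hrmem
  have hN : ∀ K : Subgroup (PresentedGroup ({R} : Set (FreeGroup (Fin k)))),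
      K.relIndex π.ker ≠ 0 → π.ker ≤ K := by
    rw [hker]
    intro K hK
    refine perfect_closure (qR r) (qR w) (e := e) (m := m) (n := n) hmn ?_ K hK
    have h1 : qR ((w⁻¹ * r * w) ^ (-e) * r ^ m * (w⁻¹ * r * w) ^ e * r ^ (-n)) = 1 := hqRk
    simpa only [map_mul, map_zpow, map_inv] using h1
  refine ⟨π, fun i => rfl, hπ, hN, fch_comap π hπ hN, fun j => ?_⟩
  rw [fch_comap π hπ hN j, fch_comap π hπ hN (j + 1)]
  exact (Subgroup.comap_injective hπ).eq_iff

end Pool.Agent.Results.MP_bf9ac2_al.ConjugationClosure
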