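import Pool.Agent.H88FR.Root

/-!
The chain of iterated finite residuals along the Magnus hierarchy of one-relator groups.
-/

namespace Pool.Agent.Results.MP_bf9ac2_al.MagnusReduction

open Pool.Agent.Helper68.FR Pool.Agent.H88FR

/-- Let `G` be the one-relator group generated by the finite set `X` and by `t` with relator `r`, let
`G'` have the relator `r' = r (t ^ a, x t ^ (-b))`, and let `c r' c⁻¹` be the word `r₀` in the letters
`x_j = t⁻ʲ x tʲ`, `0 ≤ j ≤ m`; let `L` be the one-relator group generated by the letters `x_j` with
relator `r₀`. If some `y_m` and some `z_0` have nonzero exponent sum in `r₀`, then the chain of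
iterated finite residuals becomes constant for one of `G`, `G'`, `L` if and only if it does for all
of them. -/
theorem result (X : Type) [Finite X] (r : FreeGroup (Option X)) (x : X) (a : ℕ) (ha : 1 ≤ a)
    (b : ℤ) (c : FreeGroup (Option X)) (m : ℕ) (r₀ : FreeGroup (X × Fin (m + 1)))
    (hr : c * sub (Option X) none (some x) a b r * c⁻¹ = mag X m r₀) (y z : X)
    (hy : Multiplicative.toAdd (expSum (y, Fin.last m) r₀) ≠ 0)
    (hz : Multiplicative.toAdd (expSum (z, (0 : Fin (m + 1))) r₀) ≠ 0) (n : ℕ) (hn : 1 ≤ n) :
    (fch (PresentedGroup ({r₀} : Set (FreeGroup (X × Fin (m + 1))))) n =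
        fch (PresentedGroup ({r₀} : Set (FreeGroup (X × Fin (m + 1))))) (n + 1) →
      fch (PresentedGroup
          ({sub (Option X) none (some x) a b r} : Set (FreeGroup (Option X)))) (n + 1) =
        fch (PresentedGroup
          ({sub (Option X) none (some x) a b r} : Set (FreeGroup (Option X)))) (n + 2)) ∧
    (fch (PresentedGroup ({r} : Set (FreeGroup (Option X)))) n =
        fch (PresentedGroup ({r} : Set (FreeGroup (Option X)))) (n + 1) →
      fch (PresentedGroup
          ({sub (Option X) none (some x) a b r} : Set (FreeGroup (Option X)))) (n + 1) =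
        fch (PresentedGroup
          ({sub (Option X) none (some x) a b r} : Set (FreeGroup (Option X)))) (n + 2)) ∧
    (fch (PresentedGroup
          ({sub (Option X) none (some x) a b r} : Set (FreeGroup (Option X)))) n =
        fch (PresentedGroup
          ({sub (Option X) none (some x) a b r} : Set (FreeGroup (Option X)))) (n + 1) →
      fch (PresentedGroup ({r₀} : Set (FreeGroup (X × Fin (m + 1))))) n =
          fch (PresentedGroup ({r₀} : Set (FreeGroup (X × Fin (m + 1))))) (n + 1) ∧
        fch (PresentedGroup ({r} : Set (FreeGroup (Option X)))) n =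
          fch (PresentedGroup ({r} : Set (FreeGroup (Option X)))) (n + 1)) ∧
    (fch (PresentedGroup ({r₀} : Set (FreeGroup (X × Fin (m + 1))))) n = ⊥ →
      fch (PresentedGroup
          ({sub (Option X) none (some x) a b r} : Set (FreeGroup (Option X)))) (n + 1) = ⊥ ∧
        fch (PresentedGroup ({r} : Set (FreeGroup (Option X)))) (n + 1) = ⊥) := by
  have hA := edge X m r₀ y z hy hz
  -- the groups with conjugate relators
  have hcl : Subgroup.normalClosure
      ({sub (Option X) none (some x) a b r} : Set (FreeGroup (Option X))) =
      Subgroup.normalClosure ({mag X m r₀} : Set (FreeGroup (Option X))) := by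
    rw [← hr]
    exact normalClosure_conj _ c
  let e : PresentedGroup ({sub (Option X) none (some x) a b r} : Set (FreeGroup (Option X))) ≃*
      PresentedGroup ({mag X m r₀} : Set (FreeGroup (Option X))) :=
    QuotientGroup.quotientMulEquivOfEq hcl
  have he := retract_fch e.toMonoidHom e.symm.toMonoidHom (fun g => e.symm_apply_apply g)
  have he' := retract_fch e.symm.toMonoidHom e.toMonoidHom (fun g => e.apply_symm_apply g)
  -- the exponent sum of `t`
  let χ' : FreeGroup (Option X) →* Multiplicative ℤ := expSum none
  have hχmag : ∀ w, χ' (mag X m w) = 1 := by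
    intro w
    have h1 : χ'.comp (mag X m) = 1 := by
      apply FreeGroup.ext_hom
      intro p
      rw [MonoidHom.comp_apply, mag_of, map_mul, map_mul, map_pow, map_pow, map_inv]
      simp only [χ', expSum, FreeGroup.lift_apply_of]
      simp
    have h2 := DFunLike.congr_fun h1 w
    exact h2
  have hχr : (χ'.comp (sub (Option X) none (some x) a b)) r = 1 := by
    have h1 := hχmag r₀
    rw [← hr, map_mul, map_mul, map_inv, mul_right_comm, mul_inv_cancel, one_mul] at h1
    exact h1
  have hχt : (χ'.comp (sub (Option X) none (some x) a b)) (FreeGroup.of none) ≠ 1 := by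
    rw [MonoidHom.comp_apply, sub_t, map_pow]
    simp only [χ', expSum, FreeGroup.lift_apply_of, if_true]
    intro h
    have h2 := congrArg Multiplicative.toAdd h
    rw [toAdd_pow, toAdd_ofAdd, toAdd_one] at h2
    simp at h2
    omega
  obtain ⟨hR1, hR2⟩ := root_stab (Option X) none (some x) (by simp) a ha b r _ hχr hχt
  refine ⟨fun h => ?_, fun h => hR1 n hn h, fun h => ⟨?_, hR2 n h⟩, fun h => ?_⟩
  · have h1 := (hx X m r₀).stab_up hA hn h
    rw [← he, ← he, h1]
  · apply (hx X m r₀).stab_down hA
    rw [← he', ← he', h]
  · have h1 := (hx X m r₀).fch_bot hA hn h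
    have h2 : fch (PresentedGroup
        ({sub (Option X) none (some x) a b r} : Set (FreeGroup (Option X)))) (n + 1) = ⊥ :=
      fch_eq_bot_of_injective e.toMonoidHom e.injective _ h1
    obtain ⟨j, hj⟩ := sub_embedding (Option X) none (some x) (by simp) a ha b r
    exact ⟨h2, fch_eq_bot_of_injective j hj _ h2⟩

end Pool.Agent.Results.MP_bf9ac2_al.MagnusReduction
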