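import Pool.Agent.H88FR.Pos

/-!
One-relator groups in whose relator all generators but one occur with exponents of one sign.
-/

namespace Pool.Agent.Results.MP_bf9ac2_al.OneSignRelators

open Pool.Agent.Helper68.FR Pool.Agent.H88FR

/-- If every generator of the one-relator group `G` except one generator `t` occurs in the reduced
relator `r` with exponents of one sign only, then `f^(n+1) G` is trivial, where `n` is the number of
letters of `r` which are different from `t` and `t⁻¹`. -/
theorem result (X : Type) [Finite X] [DecidableEq X] (t : X) (ε : X → Bool) (r : FreeGroup X)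
    (hr : ∀ p ∈ r.toWord, p.1 ≠ t → p.2 = ε p.1) :
    fch (PresentedGroup ({r} : Set (FreeGroup X)))
      ((r.toWord.filter fun p => p.1 ≠ t).length + 1) = ⊥ := by
  have h := pos_bot (r.toWord.filter fun p => p.1 ≠ t).length X r.toWord t ε hr (by
    congr 1
    apply List.filter_congr
    intro p _
    simp)
  rwa [FreeGroup.mk_toWord] at h

end Pool.Agent.Results.MP_bf9ac2_al.OneSignRelators
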