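import Pool.Agent.Helper68.FR.Main

/-!
The chain of iterated finite residuals of a one-relator group is constant from the first finite
residual on whenever one of its members has a virtually free quotient.
-/

namespace Pool.Agent.Results.MP_bf9ac2_al.VirtuallyFreeQuotient

open Pool.Agent.Helper68.FR

/-- (1) For every finitely presented group `G` and every normal subgroup `K` with `G / K` virtually
free the finite residuals of `K` and of `G` coincide.
(2) For every one-relator group `G`: if `G / f^m G` is virtually free for some `m ≥ 1` then
`f^n G = f^1 G` for all `n ≥ 1`. -/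
theorem result :
    (∀ (k : ℕ) (R : Set (FreeGroup (Fin k))), R.Finite →
      ∀ (K : Subgroup (PresentedGroup R)) [K.Normal],
        VirtuallyFree (PresentedGroup R ⧸ K) → fres K = fres ⊤) ∧
    (∀ (k : ℕ) (r : FreeGroup (Fin k)) (m : ℕ), 1 ≤ m →
      VirtuallyFree (PresentedGroup ({r} : Set (FreeGroup (Fin k))) ⧸
        fch (PresentedGroup ({r} : Set (FreeGroup (Fin k)))) m) →
      ∀ n : ℕ, 1 ≤ n →
        fch (PresentedGroup ({r} : Set (FreeGroup (Fin k)))) n =
          fch (PresentedGroup ({r} : Set (FreeGroup (Fin k)))) 1) := by
  refine ⟨fun k R hR K hK hvf => ?_, fun k r m hm hvf n hn => ?_⟩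
  · have : Finite R := hR
    exact fres_eq K hvf
  · exact fch_eq hm hvf hn

end Pool.Agent.Results.MP_bf9ac2_al.VirtuallyFreeQuotient
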